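import Pool.Agent.W398.SG.StmC

/-! Project SG (helper398), part C: triangular groups of level `k` are finite `p`-groups. -/

set_option autoImplicit false

namespace Pool.Agent.W557.SG.PG

open Pool.Agent.W37.SG Pool.Agent.W398.SG.C

theorem tri_agree {p : ℕ} {h : Equiv.Perm (ℕ → ZMod p)} (hh : IsTri p h) {i : ℕ}
    {x y : ℕ → ZMod p} (hxy : ∀ j < i, x j = y j) : ∀ j < i, h x j = h y j := by
  intro j hj
  have h1 := hh j x y (fun l hl => hxy l (hl.trans hj))
  have h2 := hxy j hj
  rw [h2] at h1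
  exact sub_left_inj.1 h1

theorem tri_mul {p : ℕ} {g h : Equiv.Perm (ℕ → ZMod p)} (hg : IsTri p g) (hh : IsTri p h) :
    IsTri p (g * h) := by
  intro i x y hxy
  have h1 := hg i (h x) (h y) (tri_agree hh hxy)
  have h2 := hh i x y hxy
  rw [Equiv.Perm.mul_apply, Equiv.Perm.mul_apply]
  calc g (h x) i - x i = (g (h x) i - h x i) + (h x i - x i) := by ring
    _ = (g (h y) i - h y i) + (h y i - y i) := by rw [h1, h2]
    _ = g (h y) i - y i := by ring

theorem tri_one {p : ℕ} : IsTri p 1 := by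
  intro i x y _
  simp

theorem tri_pow {p : ℕ} {g : Equiv.Perm (ℕ → ZMod p)} (hg : IsTri p g) (n : ℕ) :
    IsTri p (g ^ n) := by
  induction n with
  | zero => rw [pow_zero]; exact tri_one
  | succ n ih => rw [pow_succ]; exact tri_mul ih hg

theorem ker_step {p : ℕ} {h : Equiv.Perm (ℕ → ZMod p)} (hh : IsTri p h) (i : ℕ)
    (hk : IsKer p i h) (n : ℕ) (x : ℕ → ZMod p) :
    (∀ j < i, (h ^ n) x j = x j) ∧ (h ^ n) x i = x i + n * (h x i - x i) := by
  induction n with
  | zero => simp
  | succ n ih =>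
    rw [pow_succ', Equiv.Perm.mul_apply]
    refine ⟨fun j hj => ?_, ?_⟩
    · rw [hk _ j hj, ih.1 j hj]
    · have h1 := hh i ((h ^ n) x) x ih.1
      have h2 : h ((h ^ n) x) i = (h ^ n) x i + (h x i - x i) := by
        rw [← h1]
        ring
      rw [h2, ih.2]
      push_cast
      ring

theorem ker_pow {p : ℕ} {g : Equiv.Perm (ℕ → ZMod p)} (hg : IsTri p g) (i : ℕ) :
    IsKer p i (g ^ p ^ i) := by
  induction i with
  | zero => intro x j hj; exact absurd hj (Nat.not_lt_zero j)
  | succ i ih =>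
    intro x j hj
    rw [pow_succ, pow_mul]
    have h1 := ker_step (tri_pow hg (p ^ i)) i ih p x
    rcases Nat.lt_succ_iff_lt_or_eq.1 hj with h | h
    · exact h1.1 j h
    · subst h
      rw [h1.2, ZMod.natCast_self, zero_mul, add_zero]

theorem lvl_pow {p k : ℕ} {g : Equiv.Perm (ℕ → ZMod p)} (hg : IsLvl p k g) (n : ℕ) :
    IsLvl p k (g ^ n) := by
  induction n with
  | zero => intro x i _; rfl
  | succ n ih =>
    intro x i hi
    rw [pow_succ', Equiv.Perm.mul_apply, hg _ i hi, ih x i hi]

theorem main : S_PG := by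
  intro p hp k
  refine ⟨?_, fun g hg hl => ?_⟩
  · have : NeZero p := ⟨hp.out.ne_zero⟩
    let F : Equiv.Perm (ℕ → ZMod p) → ((Fin k → ZMod p) → Fin k → ZMod p) :=
      fun g y i => g (ext0 p k y) i
    have hinj : Set.InjOn F {g : Equiv.Perm (ℕ → ZMod p) | IsTri p g ∧ IsLvl p k g} := by
      rintro g ⟨hg, hgl⟩ h ⟨hh, hhl⟩ hF
      refine Equiv.ext fun x => ?_
      funext i
      rcases Nat.lt_or_ge i k with hi | hi
      · have hx : ∀ j < i, x j = ext0 p k (fun l : Fin k => x l) j := by
          intro j hj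
          unfold ext0
          rw [dif_pos (hj.trans hi)]
        have h1 := hg i x _ hx
        have h2 := hh i x _ hx
        have h3 : g (ext0 p k (fun l : Fin k => x l)) i = h (ext0 p k (fun l : Fin k => x l)) i :=
          congrFun (congrFun hF (fun l : Fin k => x l)) ⟨i, hi⟩
        rw [h3] at h1
        exact sub_left_inj.1 (h1.trans h2.symm)
      · rw [hgl x i hi, hhl x i hi]
    exact Set.Finite.of_finite_image (Set.toFinite (F '' _)) hinj
  · refine Equiv.ext fun x => ?_
    funext i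
    rcases Nat.lt_or_ge i k with hi | hi
    · exact ker_pow hg k x i hi
    · exact lvl_pow hl (p ^ k) x i hi

end Pool.Agent.W557.SG.PG
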